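import Mathlib

/-! Partition lemmas for well-orders: the pigeonhole principle and the Erdos-Rado theorem for pairs
(arbitrary sets of colours). -/

set_option autoImplicit false

universe u v

namespace Pool.Agent.RK

open Cardinal

/-- Definition by recursion of a function with a property. -/
theorem exists_rec {R : Type u} [LT R] [WellFoundedLT R] {β : R → Type v}
    (P : (r : R) → ((r' : R) → r' < r → β r') → β r → Prop)
    (h : ∀ r prev, ∃ v, P r prev v) :
    ∃ F : (r : R) → β r, ∀ r, P r (fun r' _ => F r') (F r) := by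
  classical
  choose c hc using h
  let F : (r : R) → β r :=
    WellFounded.fix (wellFounded_lt (α := R)) (fun r rec => c r rec)
  have hF : ∀ r, F r = c r (fun r' _ => F r') := fun r => WellFounded.fix_eq _ _ _
  refine ⟨F, fun r => ?_⟩
  rw [hF r]
  exact hc r _

/-- A well-order `L` such that every colouring of `L` is constant on a copy of `A`. -/
theorem pigeon (C A : Type u) [LinearOrder A] [WellFoundedLT A] :
    ∃ (L : Type u) (_ : LinearOrder L) (_ : WellFoundedLT L), ∀ f : L → C,
      ∃ g : A → L, StrictMono g ∧ ∃ c, ∀ a, f (g a) = c := by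
  let μ : Cardinal.{u} := max (max #A #C) ℵ₀
  have hμ : ℵ₀ ≤ μ := le_max_right _ _
  let κ : Cardinal.{u} := Order.succ μ
  refine ⟨κ.ord.ToType, inferInstance, inferInstance, fun f => ?_⟩
  have hκ : #(κ.ord.ToType) = κ := by simp
  have hC : #C < κ.ord.cof := by
    rw [(isRegular_succ hμ).cof_ord]
    exact Order.lt_succ_of_le ((le_max_right _ _).trans (le_max_left _ _))
  obtain ⟨c, hc⟩ := infinite_pigeonhole_card f κ hκ.ge (hμ.trans (Order.le_succ _)) hC
  have hA : #A < #(f ⁻¹' {c}) :=
    (Order.lt_succ_of_le ((le_max_left _ _).trans (le_max_left _ _))).trans_le hc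
  have hle : Ordinal.type (α := A) (· < ·) ≤ Ordinal.type (α := (f ⁻¹' {c} : Set _)) (· < ·) := by
    by_contra hlt
    have h1 := Ordinal.card_le_card (le_of_lt (not_le.1 hlt))
    rw [Ordinal.card_type, Ordinal.card_type] at h1
    exact absurd hA (not_lt.2 h1)
  obtain ⟨g⟩ := Ordinal.type_le_iff'.1 hle
  exact ⟨fun a => (g a).1, fun a b hab => g.map_rel_iff.2 hab, c, fun a => (g a).2⟩

/-- A well-ordered set which is larger than a given set. -/
theorem exists_big (T : Type u) :
    ∃ (W : Type u) (_ : LinearOrder W) (_ : WellFoundedLT W), ∀ code : W → T,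
      ¬ Function.Injective code := by
  refine ⟨(#(Set T)).ord.ToType, inferInstance, inferInstance, fun code h => ?_⟩
  have h1 := mk_le_of_injective h
  have h2 : #((#(Set T)).ord.ToType) = #(Set T) := by simp
  rw [h2, mk_set] at h1
  exact absurd (cantor #T) (not_lt.2 h1)

/-- The Erdos-Rado theorem for pairs: for every set `C` of colours and every well-order `A` there
is a well-order `R` such that for every colouring of the pairs of `R` with colours in `C` there is
a homogeneous copy of `A`. -/
theorem erdos_rado (C A : Type u) [LinearOrder A] [WellFoundedLT A] :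
    ∃ (R : Type u) (_ : LinearOrder R) (_ : WellFoundedLT R), ∀ f : R → R → C,
      ∃ g : A → R, StrictMono g ∧ ∃ c, ∀ a b, a < b → f (g a) (g b) = c := by
  classical
  obtain ⟨B, _, _, hB⟩ := pigeon C A
  let T : Type u := Σ b : B, ({b' // b' < b} → C)
  obtain ⟨W, _, _, hW⟩ := exists_big T
  refine ⟨W, inferInstance, inferInstance, fun f => ?_⟩
  -- the canonical end-homogeneous sequence below `y`
  have hs : ∀ y : W, ∃ s : B → W, ∀ b, (∀ b' < b, s b' < y) →
      ((∀ b' < b, s b' < s b ∧ f (s b') (s b) = f (s b') y) ∧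
        ∀ x, (∀ b' < b, s b' < x ∧ f (s b') x = f (s b') y) → s b ≤ x) := by
    intro y
    refine exists_rec (R := B) (β := fun _ => W) (fun b prev v =>
      (∀ b' (h : b' < b), prev b' h < y) →
        ((∀ b' (h : b' < b), prev b' h < v ∧ f (prev b' h) v = f (prev b' h) y) ∧
          ∀ x, (∀ b' (h : b' < b), prev b' h < x ∧ f (prev b' h) x = f (prev b' h) y) →
            v ≤ x)) ?_
    intro b prev
    by_cases h : ∀ b' (h : b' < b), prev b' h < y
    · let S : Set W :=
        {x | ∀ b' (h : b' < b), prev b' h < x ∧ f (prev b' h) x = f (prev b' h) y}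
      have hS : S.Nonempty := ⟨y, fun b' hb' => ⟨h b' hb', rfl⟩⟩
      refine ⟨wellFounded_lt.min S hS, fun _ => ⟨?_, fun x hx => ?_⟩⟩
      · exact wellFounded_lt.min_mem S hS
      · exact not_lt.1 (wellFounded_lt.not_lt_min S hx)
    · exact ⟨y, fun h' => absurd h' h⟩
  choose s hs using hs
  by_cases hcase : ∃ y, ∀ b, s y b < y
  · obtain ⟨y, hy⟩ := hcase
    obtain ⟨g, hg, c, hc⟩ := hB (fun b => f (s y b) y)
    have h1 : ∀ b' b, b' < b → s y b' < s y b ∧ f (s y b') (s y b) = f (s y b') y :=
      fun b' b h => (hs y b (fun b'' _ => hy b'')).1 b' h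
    refine ⟨fun a => s y (g a), fun a b hab => (h1 _ _ (hg hab)).1, c, fun a b hab => ?_⟩
    rw [(h1 _ _ (hg hab)).2]
    exact hc a
  · exfalso
    have hex : ∀ y, ∃ b, (∀ b' < b, s y b' < y) ∧ s y b = y := by
      intro y
      have hne : {b | ¬ s y b < y}.Nonempty := by
        by_contra hn
        exact hcase ⟨y, fun b => by
          by_contra hb
          exact hn ⟨b, hb⟩⟩
      let b := wellFounded_lt.min {b | ¬ s y b < y} hne
      have hb : ¬ s y b < y := wellFounded_lt.min_mem _ hne
      have hb' : ∀ b' < b, s y b' < y := by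
        intro b' h
        by_contra h'
        exact wellFounded_lt.not_lt_min {b | ¬ s y b < y} (x := b') h' h
      refine ⟨b, hb', le_antisymm ?_ (not_lt.1 hb)⟩
      exact (hs y b hb').2 y (fun b' h => ⟨hb' b' h, rfl⟩)
    choose b hb hby using hex
    let code : W → T := fun y => ⟨b y, fun b' => f (s y b'.1) y⟩
    refine hW code ?_
    intro y z hyz
    have hbe : b y = b z := congrArg Sigma.fst hyz
    have hfe : ∀ b' < b y, f (s y b') y = f (s z b') z := by
      intro b' h
      have h' : b' < b z := hbe ▸ h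
      have key : ∀ (p q : T) (hpq : p = q) (b' : B) (hp : b' < p.1) (hq : b' < q.1),
          p.2 ⟨b', hp⟩ = q.2 ⟨b', hq⟩ := by
        intro p q hpq b' hp hq
        subst hpq
        rfl
      exact key _ _ hyz b' h h'
    have heq : ∀ b'', b'' ≤ b y → s y b'' = s z b'' := by
      intro b''
      induction b'' using (wellFounded_lt (α := B)).induction with
      | _ b'' ih =>
        intro hb''
        have hy' : ∀ b' < b'', s y b' < y := fun b' h => hb y b' (h.trans_le hb'')
        have hz' : ∀ b' < b'', s z b' < z := fun b' h => hb z b' (hbe ▸ h.trans_le hb'')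
        have h1 := hs y b'' hy'
        have h2 := hs z b'' hz'
        refine le_antisymm (h1.2 _ fun b' h => ?_) (h2.2 _ fun b' h => ?_)
        · rw [ih b' h (h.le.trans hb'')]
          refine ⟨(h2.1 b' h).1, ?_⟩
          rw [(h2.1 b' h).2, ← hfe b' (h.trans_le hb''), ih b' h (h.le.trans hb'')]
        · rw [← ih b' h (h.le.trans hb'')]
          refine ⟨(h1.1 b' h).1, ?_⟩
          rw [(h1.1 b' h).2, hfe b' (h.trans_le hb''), ih b' h (h.le.trans hb'')]
    calc y = s y (b y) := (hby y).symm
      _ = s z (b y) := heq _ le_rfl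
      _ = s z (b z) := by rw [hbe]
      _ = z := hby z

end Pool.Agent.RK
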