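import Pool.Agent.RK.Red

/-! The reduction for an arbitrary family `g ξ` (`ξ : Ξ`) of subsets of `L`. -/

set_option autoImplicit false

universe u v

namespace Pool.Agent.RK

/-- The pigeonhole principle. -/
theorem pigeon_inj (C A : Type u) :
    ∃ J : Type u, ∀ f : J → C, ∃ g : A → J, Function.Injective g ∧ ∃ c, ∀ a, f (g a) = c := by
  obtain ⟨_, _⟩ := exists_wellFoundedLT A
  obtain ⟨J, _, _, hJ⟩ := pigeon C A
  refine ⟨J, fun f => ?_⟩
  obtain ⟨g, hg, hc⟩ := hJ f
  exact ⟨g, hg.injective, hc⟩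

namespace UV

variable {E J : Type u}

/-- Extension property with many solutions. -/
theorem exists_ext_many (val : E → Option (UV (E ⊕ J)))
    (hinj : ∀ i j x, val i = some x → val j = some x → i = j) (S : Set E) :
    ∃ y : J → UV (E ⊕ J), Function.Injective y ∧ ∀ j, ∀ i x, val i = some x →
      y j ≠ x ∧ ((graph (E ⊕ J)).Adj (y j) x ↔ i ∈ S) := by
  classical
  let f : J → E ⊕ J → UV (E ⊕ J) := fun j => Sum.elim (fun i => (val i).getD leaf)
    (fun j' => if j' = j then leaf else node ∅ (fun _ => leaf))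
  let T : Set (E ⊕ J) := {z | ∃ i, z = Sum.inl i ∧ i ∈ S ∧ (val i).isSome = true}
  refine ⟨fun j => node T (f j), ?_, ?_⟩
  · intro j j' h
    have h1 : f j = f j' := (UV.node.inj h).2
    have h2 := congrFun h1 (Sum.inr j)
    simp only [f, Sum.elim_inr, if_true] at h2
    by_contra hne
    rw [if_neg hne] at h2
    simp at h2
  · intro j i x hx
    have hc : Child x (node T (f j)) := ⟨Sum.inl i, by simp [f, hx]⟩
    refine ⟨fun h => ?_, ?_⟩
    · change node T (f j) = x at h
      rw [h] at hc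
      exact child_irrefl _ hc
    · constructor
      · rintro (h | h)
        · exact absurd h.child (child_asymm hc)
        · obtain ⟨z, ⟨i', rfl, hi', hs⟩, hz⟩ := h
          obtain ⟨w, hw⟩ := Option.isSome_iff_exists.1 hs
          simp only [f, Sum.elim_inl, hw, Option.getD_some] at hz
          subst hz
          rw [hinj i i' w hx hw]
          exact hi'
      · intro h
        exact Or.inr ⟨Sum.inl i, ⟨i, rfl, h, by simp [hx]⟩, by simp [f, hx]⟩

end UV

/-- The reduction for a family of subsets of `L`: vertices `y a ξ` such that the relation of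
`y a ξ` to the lower vertices does not depend on `ξ`. -/
theorem reduction_fam (L Ξ C : Type u) [LinearOrder L] [WellFoundedLT L] (g : Ξ → L → Prop) :
    ∃ (V : Type u) (G : SimpleGraph V), ∀ col : V → V → C,
      ∃ (y : L → Ξ → V) (D : L → Ξ → L → C), (∀ a, Function.Injective (y a)) ∧
        ∀ a' a, a' < a → ∀ ξ' ξ : Ξ, y a ξ ≠ y a' ξ' ∧ (G.Adj (y a ξ) (y a' ξ') ↔ g ξ' a) ∧
          col (y a' ξ') (y a ξ) = D a' ξ' a := by
  classical
  obtain ⟨J, hJ⟩ := pigeon_inj (L × Ξ → C) Ξ
  refine ⟨UV ((L × Ξ) ⊕ J), UV.graph _, fun col => ?_⟩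
  let W : Type u := UV ((L × Ξ) ⊕ J)
  let Pre : (a : L) → ((a' : L) → a' < a → Ξ → W) → Prop := fun a prev =>
    ∀ a' (h' : a' < a) ξ' a'' (h'' : a'' < a) ξ'', prev a' h' ξ' = prev a'' h'' ξ'' →
      a' = a'' ∧ ξ' = ξ''
  let Con : (a : L) → ((a' : L) → a' < a → Ξ → W) → (Ξ → W) → Prop := fun a prev v =>
    Function.Injective v ∧
    (∀ a' (h : a' < a) ξ' ξ, v ξ ≠ prev a' h ξ' ∧
      ((UV.graph _).Adj (v ξ) (prev a' h ξ') ↔ g ξ' a)) ∧
    ∃ d : L → Ξ → C, ∀ a' (h : a' < a) ξ' ξ, col (prev a' h ξ') (v ξ) = d a' ξ'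
  have hstep : ∀ a prev, ∃ v, Pre a prev → Con a prev v := by
    intro a prev
    by_cases hp : Pre a prev
    · let val : L × Ξ → Option W := fun p => if h : p.1 < a then some (prev p.1 h p.2) else none
      have hval : ∀ a' (h : a' < a) ξ', val (a', ξ') = some (prev a' h ξ') := by
        intro a' h ξ'
        simp only [val]
        rw [dif_pos h]
      have hval' : ∀ p x, val p = some x → ∃ h : p.1 < a, x = prev p.1 h p.2 := by
        intro p x hx
        by_cases h : p.1 < a
        · refine ⟨h, ?_⟩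
          rw [hval p.1 h p.2] at hx
          exact (Option.some.inj hx).symm
        · simp only [val] at hx
          rw [dif_neg h] at hx
          exact absurd hx (by simp)
      obtain ⟨y, hy, hy'⟩ := UV.exists_ext_many (J := J) val (fun p q x hx hx' => by
        obtain ⟨h1, rfl⟩ := hval' p x hx
        obtain ⟨h2, h3⟩ := hval' q _ hx'
        have := hp _ _ _ _ _ _ h3
        exact Prod.ext this.1 this.2) {p | g p.2 a}
      obtain ⟨gg, hgg, c, hc⟩ := hJ (fun j p =>
        if h : p.1 < a then col (prev p.1 h p.2) (y j) else col UV.leaf UV.leaf)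
      refine ⟨fun ξ => y (gg ξ), fun _ => ⟨hy.comp hgg, ?_, fun a' ξ' => c (a', ξ'), ?_⟩⟩
      · intro a' h ξ' ξ
        exact hy' (gg ξ) (a', ξ') _ (hval a' h ξ')
      · intro a' h ξ' ξ
        have h1 := congrFun (hc ξ) (a', ξ')
        change col (prev a' h ξ') (y (gg ξ)) = c (a', ξ')
        rw [← h1, dif_pos h]
    · exact ⟨fun _ => UV.leaf, fun h => absurd h hp⟩
  obtain ⟨y, hy⟩ := exists_rec (R := L) (β := fun _ => Ξ → W)
    (fun a prev v => Pre a prev → Con a prev v) hstep
  have hcon : ∀ a, Con a (fun a' _ => y a') (y a) := by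
    intro a
    induction a using (wellFounded_lt (α := L)).induction with
    | _ a ih =>
      refine hy a ?_
      intro a' h' ξ' a'' h'' ξ'' heq
      rcases lt_trichotomy a' a'' with h | h | h
      · exact absurd heq.symm ((ih a'' h'').2.1 a' h ξ' ξ'').1
      · subst h
        exact ⟨rfl, (ih a' h').1 heq⟩
      · exact absurd heq ((ih a' h').2.1 a'' h ξ'' ξ').1
  choose D hD using fun a => (hcon a).2.2
  exact ⟨y, fun a' ξ' a => D a a' ξ', fun a => (hcon a).1, fun a' a h ξ' ξ =>
    ⟨((hcon a).2.1 a' h ξ' ξ).1, ((hcon a).2.1 a' h ξ' ξ).2, hD a a' h ξ' ξ⟩⟩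

end Pool.Agent.RK
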