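import Pool.Agent.RK.ER

/-! A successor cardinal `L` with a small family of subsets of `L` which induces all subsets on
every small subset of `L` (Engelking and Karłowicz), and the pressing down lemma for partial
families indexed by a small set. -/

set_option autoImplicit false

universe u v

namespace Pool.Agent.RK

open Cardinal Order

theorem bdd_of_small {k : Cardinal.{u}} (hk : ℵ₀ ≤ k) (S : Set (succ k).ord.ToType)
    (hS : #S ≤ k) : ∃ z, ∀ s ∈ S, s < z := by
  by_contra hcon
  push Not at hcon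
  have hcof : IsCofinal S := by
    intro a
    obtain ⟨s, hs, h⟩ := hcon a
    exact ⟨s, hs, h⟩
  have h1 := Order.cof_le hcof
  rw [Ordinal.cof_toType, (isRegular_succ hk).cof_ord] at h1
  exact absurd (h1.trans hS) (not_le.mpr (lt_succ k))

theorem mk_Th (k : Cardinal.{u}) : #((succ k).ord.ToType) = succ k := by simp

theorem mk_Iio_le (k : Cardinal.{u}) (b : (succ k).ord.ToType) : #(Set.Iio b) ≤ k := by
  have h1 : #(Set.Iio b) < succ k := by
    have h2 := Cardinal.mk_Iio_lt b (by simp)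
    simpa using h2
  exact lt_succ_iff.mp h1

/-- Pressing down: for a function `Φ` on `L = μ⁺` whose values are partial families
`N → L × Ξ` with first coordinates below the argument, a fibre has size `μ⁺`, if
`μ ^ #N = μ` and `#Ξ ≤ μ`. -/
theorem fodor (N Ξ : Type u) [Infinite N] (μ : Cardinal.{u}) (hN : #N < μ) (hμ : μ ^ #N ≤ μ)
    (hΞ : #Ξ ≤ μ) (Φ : (succ μ).ord.ToType → N → Option ((succ μ).ord.ToType × Ξ))
    (hΦ : ∀ a m p, Φ a m = some p → p.1 < a) :
    ∃ φ, μ < #{a | Φ a = φ} := by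
  classical
  have hN0 : ℵ₀ ≤ #N := aleph0_le_mk N
  have hμ0 : ℵ₀ ≤ μ := hN0.trans hN.le
  by_contra hcon
  push Not at hcon
  let L := (succ μ).ord.ToType
  let J := (succ #N).ord.ToType
  -- counting
  have hcount : ∀ U : Set L, #U ≤ μ → #{a : L | ∀ m p, Φ a m = some p → p.1 ∈ U} ≤ μ := by
    intro U hU
    let F : Set (N → Option (L × Ξ)) := {φ | ∀ m p, φ m = some p → p.1 ∈ U}
    have h1 : {a : L | ∀ m p, Φ a m = some p → p.1 ∈ U} = ⋃ φ : F, {a | Φ a = φ.1} := by
      ext a
      simp only [Set.mem_iUnion]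
      constructor
      · intro h
        exact ⟨⟨Φ a, h⟩, rfl⟩
      · rintro ⟨φ, h⟩
        change Φ a = φ.1 at h
        intro m p hp
        rw [h] at hp
        exact φ.2 m p hp
    have h2 : #F ≤ μ := by
      have h3 : #F ≤ #(N → Option (U × Ξ)) := by
        let emb : (N → Option (U × Ξ)) → (N → Option (L × Ξ)) := fun φ n =>
          (φ n).map (fun p => (p.1.1, p.2))
        have h4 : F ⊆ Set.range emb := by
          intro φ hφ
          refine ⟨fun n => match h : φ n with
            | none => none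
            | some p => some (⟨p.1, hφ n p h⟩, p.2), ?_⟩
          funext n
          simp only [emb]
          split <;> simp_all
        exact (mk_le_mk_of_subset h4).trans mk_range_le
      refine h3.trans ?_
      have h5 : #(Option (U × Ξ)) ≤ μ := by
        rw [mk_option, mk_prod, lift_id, lift_id]
        exact add_le_of_le hμ0 (mul_le_of_le hμ0 hU hΞ) (one_le_aleph0.trans hμ0)
      rw [← power_def]
      exact (power_le_power_right h5).trans hμ
    rw [h1]
    refine mk_iUnion_le_sum_mk.trans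
      ((sum_le_sum _ (fun _ : F => μ) (fun φ : F => hcon φ.1)).trans ?_)
    rw [sum_const']
    exact mul_le_of_le hμ0 h2 le_rfl
  -- a long increasing sequence
  have hstep : ∀ (j : J) (prev : (j' : J) → j' < j → L), ∃ v : L, ∀ a : L,
      (∀ m p, Φ a m = some p → ∃ j', ∃ h : j' < j, p.1 < prev j' h) → a < v := by
    intro j prev
    let U : Set L := ⋃ j' : Set.Iio j, Set.Iio (prev j'.1 j'.2)
    have hU : #U ≤ μ := by
      refine mk_iUnion_le_sum_mk.trans
        ((sum_le_sum _ (fun _ : Set.Iio j => μ) (fun j' => mk_Iio_le μ _)).trans ?_)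
      rw [sum_const']
      exact mul_le_of_le hμ0 ((mk_Iio_le _ j).trans hN.le) le_rfl
    obtain ⟨v, hv⟩ := bdd_of_small hμ0 _ (hcount U hU)
    refine ⟨v, fun a ha => hv a ?_⟩
    intro m p hp
    obtain ⟨j', h, h'⟩ := ha m p hp
    exact Set.mem_iUnion.2 ⟨⟨j', h⟩, h'⟩
  obtain ⟨β, hβ⟩ := exists_rec (R := J) (β := fun _ => L)
    (fun j prev v => ∀ a : L,
      (∀ m p, Φ a m = some p → ∃ j', ∃ h : j' < j, p.1 < prev j' h) → a < v) hstep
  have hJ : #J ≤ μ := by
    rw [mk_Th]
    exact succ_le_of_lt hN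
  obtain ⟨z, hz⟩ := bdd_of_small hμ0 (Set.range β) (mk_range_le.trans hJ)
  have hne : {x : L | ∀ j, β j ≤ x}.Nonempty := ⟨z, fun j => (hz _ ⟨j, rfl⟩).le⟩
  let a : L := wellFounded_lt.min {x : L | ∀ j, β j ≤ x} hne
  have ha : ∀ j, β j ≤ a := wellFounded_lt.min_mem _ hne
  have ha' : ∀ c < a, ∃ j, c < β j := by
    intro c hc
    by_contra hcon'
    push Not at hcon'
    exact wellFounded_lt.not_lt_min {x : L | ∀ j, β j ≤ x} (x := c) hcon' hc
  have hm : ∀ m, ∃ j, ∀ p, Φ a m = some p → p.1 < β j := by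
    intro m
    cases h : Φ a m with
    | none =>
      have : Nonempty J := by
        rw [← mk_ne_zero_iff, mk_Th]
        exact (succ_ne_zero _)
      exact ⟨Classical.arbitrary J, fun p hp => by simp at hp⟩
    | some q =>
      obtain ⟨j, hj⟩ := ha' q.1 (hΦ a m q h)
      refine ⟨j, fun p hp => ?_⟩
      rw [← Option.some.inj hp]
      exact hj
  choose jm hjm using hm
  obtain ⟨j0, hj0⟩ := bdd_of_small hN0 (Set.range jm) mk_range_le
  have h6 := hβ j0 a fun m p hp => ⟨jm m, hj0 _ ⟨m, rfl⟩, hjm m p hp⟩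
  exact absurd (ha j0) (not_le.2 h6)

/-- A well-ordered set `L`, a family of subsets of `L` which induces all subsets on every small
subset of `L`, and the pressing down lemma. -/
theorem press (N : Type u) [Infinite N] :
    ∃ (L Ξ : Type u) (_ : LinearOrder L) (_ : WellFoundedLT L) (g : Ξ → L → Prop),
      (∀ f : N → L, ∀ s : Set L, ∃ ξ, ∀ n, g ξ (f n) ↔ f n ∈ s) ∧
      ∀ Φ : L → N → Option (L × Ξ), (∀ a m p, Φ a m = some p → p.1 < a) →
        ∀ (A : Type u) (_ : LinearOrder A) (_ : WellFoundedLT A) (_ : #A ≤ #N),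
          ∃ φ, ∃ h : A → L, StrictMono h ∧ ∀ a, Φ (h a) = φ := by
  classical
  let Mu : Type u := N → Bool
  let Ξ : Type u := (N → Mu) × (N → N → Bool) × (N → Bool)
  have hN0 : ℵ₀ ≤ #N := aleph0_le_mk N
  have hMu : #Mu = 2 ^ #N := by simp [Mu]
  have hN : #N < #Mu := by
    rw [hMu]
    exact cantor _
  have hμ : #Mu ^ #N ≤ #Mu := by
    rw [hMu, ← power_mul, mul_eq_self hN0]
  have hμ0 : ℵ₀ ≤ #Mu := hN0.trans hN.le
  have hΞ : #Ξ ≤ #Mu := by
    have h1 : #(N → Mu) ≤ #Mu := by
      rw [← power_def]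
      exact hμ
    have h2 : #(N → N → Bool) ≤ #Mu := h1
    have h3 : #(N → Bool) ≤ #Mu := le_rfl
    have h4 : #Ξ = #(N → Mu) * (#(N → N → Bool) * #(N → Bool)) := by
      simp [Ξ]
    rw [h4]
    exact mul_le_of_le hμ0 h1 (mul_le_of_le hμ0 h2 h3)
  let L : Type u := (succ #Mu).ord.ToType
  have hL : #L ≤ #(Set Mu) := by
    rw [mk_Th, mk_set]
    exact succ_le_of_lt (cantor _)
  obtain ⟨A⟩ := hL
  let g : Ξ → L → Prop := fun ξ a =>
    ∃ n, ξ.2.2 n = true ∧ ∀ m, ξ.1 m ∈ A a ↔ ξ.2.1 n m = true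
  refine ⟨L, Ξ, inferInstance, inferInstance, g, ?_, ?_⟩
  · intro f s
    -- separating points
    have hsep : ∀ x y : N, ∃ z : Mu, f x ≠ f y → ¬ (z ∈ A (f x) ↔ z ∈ A (f y)) := by
      intro x y
      by_cases h : f x = f y
      · exact ⟨fun _ => true, fun h' => absurd h h'⟩
      · by_contra hcon
        push Not at hcon
        exact h (A.injective (Set.ext fun z => (hcon z).2))
    choose d hd using hsep
    obtain ⟨e⟩ : Nonempty (N ≃ N × N) := by
      rw [← Cardinal.eq]
      simp [mul_eq_self hN0]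
    refine ⟨(fun m => d (e m).1 (e m).2, fun n m => decide (d (e m).1 (e m).2 ∈ A (f n)),
      fun n => decide (f n ∈ s)), fun n => ?_⟩
    constructor
    · rintro ⟨k, hk, h⟩
      have h1 : f k = f n := by
        by_contra hne
        refine hd k n hne ?_
        have h2 := h (e.symm (k, n))
        simp only [Equiv.apply_symm_apply, decide_eq_true_eq] at h2
        exact h2.symm
      simp only [decide_eq_true_eq] at hk
      rw [← h1]
      exact hk
    · intro h
      exact ⟨n, by simpa using h, fun m => by simp⟩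
  · intro Φ hΦ B _ _ hB
    obtain ⟨φ, hφ⟩ := fodor N Ξ #Mu hN hμ hΞ Φ hΦ
    refine ⟨φ, ?_⟩
    have hle : Ordinal.type (α := B) (· < ·) ≤
        Ordinal.type (α := ({a | Φ a = φ} : Set L)) (· < ·) := by
      by_contra hlt
      have h1 := Ordinal.card_le_card (le_of_lt (not_le.1 hlt))
      rw [Ordinal.card_type, Ordinal.card_type] at h1
      exact absurd (h1.trans (hB.trans hN.le)) (not_le.2 hφ)
    obtain ⟨h⟩ := Ordinal.type_le_iff'.1 hle
    exact ⟨fun a => (h a).1, fun a b hab => h.map_rel_iff.2 hab, fun a => (h a).2⟩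

end Pool.Agent.RK
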