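import Pool.Agent.RK.Star

/-! The reduction to the static form: a universal graph in which the vertices `y a e` are prepared
in advance. -/

set_option autoImplicit false

universe u v

namespace Pool.Agent.RK

/-- The vertices of the universal graph. -/
inductive UV (I : Type u) : Type u
  | leaf : UV I
  | node (S : Set I) (f : I → UV I) : UV I

namespace UV

variable {I : Type u}

/-- `Child x y`: `x` is one of the vertices used to define `y`. -/
def Child (x : UV I) : UV I → Prop
  | leaf => False
  | node _ f => ∃ i, f i = x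

/-- `Down x y`: `x` is one of the vertices to which `y` was joined. -/
def Down (x : UV I) : UV I → Prop
  | leaf => False
  | node S f => ∃ i ∈ S, f i = x

theorem Down.child {x y : UV I} (h : Down x y) : Child x y := by
  cases y with
  | leaf => exact h
  | node S f =>
    obtain ⟨i, _, hi⟩ := h
    exact ⟨i, hi⟩

theorem wf : WellFounded (Child : UV I → UV I → Prop) := by
  refine ⟨fun y => ?_⟩
  induction y with
  | leaf => exact ⟨_, fun x hx => hx.elim⟩
  | node S f ih =>
    refine ⟨_, fun x hx => ?_⟩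
    obtain ⟨i, rfl⟩ := hx
    exact ih i

theorem child_irrefl (x : UV I) : ¬ Child x x := fun h => wf.asymmetric _ _ h h

theorem child_asymm {x y : UV I} (h : Child x y) : ¬ Child y x := wf.asymmetric _ _ h

/-- The universal graph. -/
def graph (I : Type u) : SimpleGraph (UV I) where
  Adj x y := Down x y ∨ Down y x
  symm := ⟨fun _ _ h => h.symm⟩
  loopless := ⟨fun x h => by
    rcases h with h | h <;> exact child_irrefl x h.child⟩

/-- Extension property, for partial injective families. -/
theorem exists_ext (val : I → Option (UV I))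
    (hinj : ∀ i j x, val i = some x → val j = some x → i = j) (S : Set I) :
    ∃ y : UV I, ∀ i x, val i = some x → y ≠ x ∧ ((graph I).Adj y x ↔ i ∈ S) := by
  classical
  refine ⟨node {i | i ∈ S ∧ (val i).isSome = true} (fun i => (val i).getD leaf),
    fun i x hx => ?_⟩
  have hc : Child x (node {i | i ∈ S ∧ (val i).isSome = true} (fun i => (val i).getD leaf)) :=
    ⟨i, by simp [hx]⟩
  refine ⟨fun h => ?_, ?_⟩
  · rw [h] at hc
    exact child_irrefl _ hc
  · constructor
    · rintro (h | h)
      · exact absurd h.child (child_asymm hc)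
      · obtain ⟨j, ⟨hj, hj'⟩, hjx⟩ := h
        obtain ⟨z, hz⟩ := Option.isSome_iff_exists.1 hj'
        simp only [hz, Option.getD_some] at hjx
        subst hjx
        rw [hinj i j z hx hz]
        exact hj
    · intro h
      refine Or.inr ⟨i, ⟨h, by simp [hx]⟩, by simp [hx]⟩

end UV

/-- The reduction. -/
theorem reduction (L C : Type u) [LinearOrder L] [WellFoundedLT L] :
    ∃ (V : Type u) (G : SimpleGraph V), ∀ col : V → V → C,
      ∃ (y : L → Set L → V) (D : L → Set L → L → C), ∀ a' a : L, a' < a → ∀ e' e : Set L,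
        y a e ≠ y a' e' ∧ (G.Adj (y a e) (y a' e') ↔ a ∈ e') ∧
          col (y a' e') (y a e) = D a' e' a := by
  classical
  -- the index sets
  obtain ⟨X, hX⟩ := exists_rec (R := L) (β := fun _ => Type u)
    (fun c prev v => Nonempty (v ≃ Set L × ((Σ c' : {c' // c' < c}, prev c'.1 c'.2) → C)))
    (fun c prev => ⟨_, ⟨Equiv.refl _⟩⟩)
  have E : ∀ c, X c ≃ Set L × ((Σ c' : {c' // c' < c}, X c'.1) → C) := fun c => (hX c).some
  let I : Type u := Σ c, X c
  let lev : I → L := fun x => x.1
  let eOf : I → Set L := fun x => (E x.1 x.2).1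
  let pOf : (x x' : I) → lev x' < lev x → C := fun x x' h => (E x.1 x.2).2 ⟨⟨x'.1, h⟩, x'.2⟩
  obtain ⟨_, _, hlex⟩ := exists_lex lev
  refine ⟨UV I, UV.graph I, fun col => ?_⟩
  -- the recursion
  let Cond : (x : I) → ((x' : I) → x' < x → Option (UV I)) → UV I → Prop := fun x prev z =>
    (∀ x' (h : x' < x) z', prev x' h = some z' → z ≠ z') ∧
    (∀ x' (h : lev x' < lev x) z', prev x' (hlex _ _ h) = some z' →
      (((UV.graph I).Adj z z' ↔ lev x ∈ eOf x') ∧ col z' z = pOf x x' h))
  obtain ⟨val, hval⟩ := exists_rec (R := I) (β := fun _ => Option (UV I))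
    (fun x prev v => (∃ z, v = some z ∧ Cond x prev z) ∨ (v = none ∧ ¬ ∃ z, Cond x prev z))
    (fun x prev => by
      by_cases h : ∃ z, Cond x prev z
      · obtain ⟨z, hz⟩ := h
        exact ⟨some z, Or.inl ⟨z, rfl, hz⟩⟩
      · exact ⟨none, Or.inr ⟨rfl, h⟩⟩)
  have hcond : ∀ x z, val x = some z → Cond x (fun x' _ => val x') z := by
    intro x z hz
    rcases hval x with ⟨z', hz', hc⟩ | ⟨hn, _⟩
    · rw [hz] at hz'
      rw [Option.some.inj hz']
      exact hc
    · rw [hz] at hn
      exact absurd hn (by simp)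
  have hdef : ∀ x, (∃ z, Cond x (fun x' _ => val x') z) → ∃ z, val x = some z := by
    intro x hx
    rcases hval x with ⟨z', hz', _⟩ | ⟨_, hn⟩
    · exact ⟨z', hz'⟩
    · exact absurd hx hn
  have hinj : ∀ i j x, val i = some x → val j = some x → i = j := by
    intro i j x hi hj
    rcases lt_trichotomy i j with h | h | h
    · exact absurd rfl ((hcond j x hj).1 i h x hi)
    · exact h
    · exact absurd rfl ((hcond i x hi).1 j h x hj)
  -- the vertices `δ a`
  have hδ : ∀ a : L, ∃ d : UV I, ∀ i x, val i = some x →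
      d ≠ x ∧ ((UV.graph I).Adj d x ↔ a ∈ eOf i) := fun a =>
    UV.exists_ext val hinj {i | a ∈ eOf i}
  choose δ hδ using hδ
  -- the index of `y a e`
  let idx : L → Set L → I := fun a e => ⟨a, (E a).symm (e, fun x' =>
    col ((val ⟨x'.1.1, x'.2⟩).getD UV.leaf) (δ a))⟩
  have heOf : ∀ a e, eOf (idx a e) = e := by
    intro a e
    simp only [eOf, idx, Equiv.apply_symm_apply]
  have hpOf : ∀ a e x' (h : lev x' < lev (idx a e)) z', val x' = some z' →
      pOf (idx a e) x' h = col z' (δ a) := by
    intro a e x' h z' hz'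
    simp only [pOf, idx, Equiv.apply_symm_apply]
    have : (⟨x'.1, x'.2⟩ : I) = x' := rfl
    rw [this, hz', Option.getD_some]
  have hidx : ∀ a e, ∃ z, val (idx a e) = some z := by
    intro a e
    refine hdef _ ⟨δ a, fun x' _ z' hz' => (hδ a x' z' hz').1, fun x' h z' hz' => ⟨?_, ?_⟩⟩
    · exact (hδ a x' z' hz').2
    · rw [hpOf a e x' h z' hz']
  choose y hy using hidx
  refine ⟨y, fun a' e' a => col (y a' e') (δ a), fun a' a haa e' e => ?_⟩
  have h1 := (hcond (idx a e) (y a e) (hy a e)).1 (idx a' e') (hlex _ _ haa) _ (hy a' e')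
  have h2 := (hcond (idx a e) (y a e) (hy a e)).2 (idx a' e') haa _ (hy a' e')
  refine ⟨h1, ?_, ?_⟩
  · rw [h2.1, heOf]
  · rw [h2.2, hpOf a e _ haa _ (hy a' e')]

end Pool.Agent.RK
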