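import Pool.Agent.RK.ER

/-! The static form of the ranked game: for every set `C` of colours and every clock `P` there is a
well-ordered set `L` such that for every `D : L → Set L → L → C` there is one pair of colours for
which the empty list is good for every `p : P`. -/

set_option autoImplicit false

universe u v

namespace Pool.Agent.RK

/-- The static game.  A list `F` of elements of `L` (newest element at the head, all new elements
are below the old ones) is good for the clock value `p` if for all `q < p` and all patterns `s` over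
`F` there are `a` below `F` and a set `e` which meets `F` in the pattern `s`, with the right
colours `D a e x`, such that `a :: F` is good for `q`. -/
def Good {L C P : Type u} [LT L] [LT P] [WellFoundedLT P]
    (D : L → Set L → L → C) (c : Bool → C) : P → List L → Prop :=
  WellFounded.fix (C := fun _ => List L → Prop) (wellFounded_lt (α := P)) (fun p rec F =>
    ∀ q (h : q < p), ∀ s : List Bool, s.length = F.length →
      ∃ (a : L) (e : Set L), (∀ x ∈ F, a < x) ∧
        List.Forall₂ (fun x b => (x ∈ e ↔ b = true) ∧ D a e x = c b) F s ∧ rec q h (a :: F))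

/-- One step of the static game. -/
def Step {L C P : Type u} [LT L] [LT P] [WellFoundedLT P]
    (D : L → Set L → L → C) (c : Bool → C) (q : P) (s : List Bool) (F : List L) : Prop :=
  ∃ (a : L) (e : Set L), (∀ x ∈ F, a < x) ∧
    List.Forall₂ (fun x b => (x ∈ e ↔ b = true) ∧ D a e x = c b) F s ∧ Good D c q (a :: F)

theorem good_iff {L C P : Type u} [LT L] [LT P] [WellFoundedLT P]
    (D : L → Set L → L → C) (c : Bool → C) (p : P) (F : List L) :
    Good D c p F ↔ ∀ q < p, ∀ s : List Bool, s.length = F.length → Step D c q s F := by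
  unfold Step
  conv_lhs => rw [Good, WellFounded.fix_eq]
  rfl

/-- Large blocks. -/
theorem exists_blocks (K R T : Type u) [LT K] [WellFoundedLT K] :
    ∃ B : K → Type u, ∀ k,
      ∀ i : B k → (List (K × R × Bool) × List (Σ k' : {k' // k' < k}, R × B k'.1) → T → Prop),
        ¬ Function.Injective i := by
  obtain ⟨B, hB⟩ := exists_rec (R := K) (β := fun _ => Type u)
    (fun k prev v =>
      ∀ i : v → (List (K × R × Bool) × List (Σ k' : {k' // k' < k}, R × prev k'.1 k'.2) →
        T → Prop), ¬ Function.Injective i)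
    (fun k prev => ⟨Set (List (K × R × Bool) ×
      List (Σ k' : {k' // k' < k}, R × prev k'.1 k'.2) → T → Prop), fun i hi =>
        Function.cantor_injective i hi⟩)
  exact ⟨B, hB⟩

/-- Two-point sets: the homogeneous array. -/
theorem exists_array {K R T : Type u} [LT K] [LT R] [WellFoundedLT R] (B : K → Type u)
    (hB : ∀ k,
      ∀ i : B k → (List (K × R × Bool) × List (Σ k' : {k' // k' < k}, R × B k'.1) → T → Prop),
        ¬ Function.Injective i)
    (t : List (Σ k : K, R × B k) → T → Prop) :
    ∃ w : R → (k : K) → Bool → B k, ∀ r k, w r k true ≠ w r k false ∧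
      ∀ (l : List (Σ k : K, R × B k)) (Y : List (K × R × Bool)),
        (∀ x ∈ l, x.1 < k) → (∀ y ∈ Y, y.2.1 < r) →
        t (l ++ ⟨k, r, w r k true⟩ :: Y.map fun y => ⟨y.1, y.2.1, w y.2.1 y.1 y.2.2⟩) =
        t (l ++ ⟨k, r, w r k false⟩ :: Y.map fun y => ⟨y.1, y.2.1, w y.2.1 y.1 y.2.2⟩) := by
  classical
  let Q : (r : R) → ((r' : R) → r' < r → (k : K) → Bool → B k) →
      ((k : K) → Bool → B k) → Prop := fun r prev v => ∀ k, v k true ≠ v k false ∧
      ∀ (l : List (Σ k : K, R × B k)) (Y : List (K × R × Bool)),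
        (∀ x ∈ l, x.1 < k) → ∀ (hY : ∀ y ∈ Y, y.2.1 < r),
        t (l ++ ⟨k, r, v k true⟩ :: Y.pmap (fun (y : K × R × Bool) (hy : y.2.1 < r) =>
            (⟨y.1, y.2.1, prev y.2.1 hy y.1 y.2.2⟩ : Σ k : K, R × B k)) hY) =
        t (l ++ ⟨k, r, v k false⟩ :: Y.pmap (fun (y : K × R × Bool) (hy : y.2.1 < r) =>
            (⟨y.1, y.2.1, prev y.2.1 hy y.1 y.2.2⟩ : Σ k : K, R × B k)) hY)
  have hQ : ∀ r prev, ∃ v, Q r prev v := by
    intro r prev
    have key : ∀ k, ∃ b0 b1 : B k, b1 ≠ b0 ∧
        ∀ (l : List (Σ k : K, R × B k)) (Y : List (K × R × Bool)),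
        (∀ x ∈ l, x.1 < k) → ∀ (hY : ∀ y ∈ Y, y.2.1 < r),
        t (l ++ ⟨k, r, b1⟩ :: Y.pmap (fun (y : K × R × Bool) (hy : y.2.1 < r) =>
            (⟨y.1, y.2.1, prev y.2.1 hy y.1 y.2.2⟩ : Σ k : K, R × B k)) hY) =
        t (l ++ ⟨k, r, b0⟩ :: Y.pmap (fun (y : K × R × Bool) (hy : y.2.1 < r) =>
            (⟨y.1, y.2.1, prev y.2.1 hy y.1 y.2.2⟩ : Σ k : K, R × B k)) hY) := by
      intro k
      let i : B k → (List (K × R × Bool) × List (Σ k' : {k' // k' < k}, R × B k'.1) →
          T → Prop) := fun b z =>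
        if hY : ∀ y ∈ z.1, y.2.1 < r then
          t (z.2.map (fun x => (⟨x.1.1, x.2⟩ : Σ k : K, R × B k)) ++ ⟨k, r, b⟩ ::
            z.1.pmap (fun (y : K × R × Bool) (hy : y.2.1 < r) =>
              (⟨y.1, y.2.1, prev y.2.1 hy y.1 y.2.2⟩ : Σ k : K, R × B k)) hY)
        else fun _ => False
      have hi := hB k i
      rw [Function.Injective] at hi
      push Not at hi
      obtain ⟨b1, b0, hb, hne⟩ := hi
      refine ⟨b0, b1, hne, fun l Y hl hY => ?_⟩
      let l' : List (Σ k' : {k' // k' < k}, R × B k'.1) :=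
        l.pmap (fun x (hx : x.1 < k) => ⟨⟨x.1, hx⟩, x.2⟩) hl
      have hl' : l'.map (fun x => (⟨x.1.1, x.2⟩ : Σ k : K, R × B k)) = l := by
        simp only [l', List.map_pmap]
        rw [List.pmap_eq_map]
        simp
      have h := congrFun hb (Y, l')
      simp only [i] at h
      rw [dif_pos hY, dif_pos hY] at h
      rw [hl'] at h
      exact h
    choose b0 b1 hb using key
    exact ⟨fun k b => if b then b1 k else b0 k, fun k => ⟨by simpa using (hb k).1,
      fun l Y hl hY => by simpa using (hb k).2 l Y hl hY⟩⟩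
  obtain ⟨w, hw⟩ := exists_rec (R := R) (β := fun _ => (k : K) → Bool → B k) Q hQ
  refine ⟨w, fun r k => ⟨(hw r k).1, fun l Y hl hY => ?_⟩⟩
  have h := (hw r k).2 l Y hl hY
  rw [List.pmap_eq_map] at h
  exact h

/-- Replace the bits of a list of triples. -/
def ver {P N : Type u} (Q : List (P × N × Bool)) (s : List Bool) : List (P × N × Bool) :=
  List.zipWith (fun x b => (x.1, x.2.1, b)) Q s

theorem ver_cons {P N : Type u} (x : P × N × Bool) (Q : List (P × N × Bool)) (b : Bool)
    (s : List Bool) : ver (x :: Q) (b :: s) = (x.1, x.2.1, b) :: ver Q s := rfl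

theorem ver_nil {P N : Type u} (s : List Bool) : ver ([] : List (P × N × Bool)) s = [] := by
  simp [ver]

theorem map_ver {P N : Type u} (Q : List (P × N × Bool)) :
    ∀ s : List Bool, s.length = Q.length →
      (ver Q s).map (fun x => (x.1, x.2.1)) = Q.map (fun x => (x.1, x.2.1)) := by
  induction Q with
  | nil => intro s _; rw [ver_nil]
  | cons x Q ih =>
    intro s hs
    match s, hs with
    | b :: s, hs =>
      rw [ver_cons, List.map_cons, List.map_cons, ih s (by simpa using hs)]

/-- The relation of neighbours in a chain (lower element first). -/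
def Ch {P N : Type u} [LT P] [LT N] (x y : P × N × Bool) : Prop :=
  x.1 < y.1 ∧ y.2.1 < x.2.1

theorem ver_pairwise {P N : Type u} [LT P] [LT N] (Q : List (P × N × Bool)) (s : List Bool)
    (hs : s.length = Q.length) (hQ : Q.Pairwise Ch) : (ver Q s).Pairwise Ch := by
  have h1 : ∀ Q' : List (P × N × Bool), Q'.Pairwise Ch ↔
      (Q'.map (fun x => (x.1, x.2.1))).Pairwise (fun x y => x.1 < y.1 ∧ y.2 < x.2) := by
    intro Q'
    rw [List.pairwise_map]
    rfl
  rw [h1, map_ver Q s hs, ← h1]
  exact hQ

theorem ver_mem {P N : Type u} (Q : List (P × N × Bool)) (s : List Bool)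
    (hs : s.length = Q.length) (x : P × N × Bool) (hx : x ∈ ver Q s) :
    ∃ x' ∈ Q, x'.1 = x.1 ∧ x'.2.1 = x.2.1 := by
  have h : (x.1, x.2.1) ∈ (ver Q s).map (fun x => (x.1, x.2.1)) :=
    List.mem_map.2 ⟨x, hx, rfl⟩
  rw [map_ver Q s hs] at h
  obtain ⟨x', hx', h'⟩ := List.mem_map.1 h
  exact ⟨x', hx', (Prod.mk.inj h').1, (Prod.mk.inj h').2⟩

/-- Changing the bits of a chain does not change the type. -/
theorem flip {P N K : Type u} [Preorder P] [Preorder N] [Preorder K] {L T : Type u}
    (lev : L → K) (g : P → K) (hg : StrictMono g) (pt : P × N × Bool → L)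
    (hpt : ∀ x, lev (pt x) = g x.1) (t : List L → T)
    (ht : ∀ (x : P × N × Bool) (b : Bool) (l : List L) (Q : List (P × N × Bool)),
      (∀ z ∈ l, lev z < g x.1) → (∀ y ∈ Q, y.2.1 < x.2.1) →
      t (l ++ pt (x.1, x.2.1, b) :: Q.map pt) = t (l ++ pt x :: Q.map pt))
    (Q : List (P × N × Bool)) : ∀ (s : List Bool) (l : List L), s.length = Q.length →
      Q.Pairwise Ch → (∀ z ∈ l, ∀ x ∈ Q, lev z < g x.1) →
      t (l ++ (ver Q s).map pt) = t (l ++ Q.map pt) := by
  induction Q with
  | nil => intro s l _ _ _; rw [ver_nil]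
  | cons x Q ih =>
    intro s l hs hQ hl
    match s, hs with
    | b :: s, hs =>
      rw [ver_cons, List.map_cons]
      have h1 : l ++ pt (x.1, x.2.1, b) :: (ver Q s).map pt =
          (l ++ [pt (x.1, x.2.1, b)]) ++ (ver Q s).map pt := by simp
      have h2 : (l ++ [pt (x.1, x.2.1, b)]) ++ Q.map pt =
          l ++ pt (x.1, x.2.1, b) :: Q.map pt := by simp
      rw [h1, ih s (l ++ [pt (x.1, x.2.1, b)]) (by simpa using hs) hQ.of_cons, h2,
        List.map_cons]
      · refine ht x b l Q (fun z hz => hl z hz x (by simp)) fun y hy => ?_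
        exact ((List.pairwise_cons.1 hQ).1 y hy).2
      · intro z hz y hy
        rcases List.mem_append.1 hz with hz | hz
        · exact hl z hz y (by simp [hy])
        · rw [List.mem_singleton] at hz
          subst hz
          rw [hpt]
          exact hg ((List.pairwise_cons.1 hQ).1 y hy).1

/-- The claim: chains in the homogeneous set are good. -/
theorem good_of_homog {L C P : Type u} [LT L] [LinearOrder P] [WellFoundedLT P]
    (D : L → Set L → L → C) (c : Bool → C) (pt : P × ULift.{u} ℕ × Bool → L)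
    (hlt : ∀ x y : P × ULift.{u} ℕ × Bool, x.1 < y.1 → pt x < pt y)
    (e : Set L) (he : ∀ x, pt x ∈ e ↔ x.2.2 = true)
    (hD : ∀ x y : P × ULift.{u} ℕ × Bool, x.1 < y.1 → y.2.1 < x.2.1 → x.2.2 = false →
      D (pt x) e (pt y) = c y.2.2)
    (hT : ∀ (Q : List (P × ULift.{u} ℕ × Bool)) (s : List Bool), s.length = Q.length →
      Q.Pairwise Ch → ∀ (q : P) (s' : List Bool),
        Step D c q s' ((ver Q s).map pt) ↔ Step D c q s' (Q.map pt))
    (p : P) : ∀ Q : List (P × ULift.{u} ℕ × Bool), Q.Pairwise Ch → (∀ x ∈ Q, p ≤ x.1) →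
      Good D c p (Q.map pt) := by
  induction p using (wellFounded_lt (α := P)).induction with
  | _ p ih =>
    intro Q hQ hp
    rw [good_iff]
    intro q hq s hs
    rw [List.length_map] at hs
    rw [← hT Q s hs hQ]
    -- a large label
    have hn : ∃ n0 : ℕ, ∀ x ∈ Q, x.2.1.down < n0 := by
      clear hQ hp hs
      induction Q with
      | nil => exact ⟨0, by simp⟩
      | cons x Q ihQ =>
        obtain ⟨n, hn⟩ := ihQ
        refine ⟨max n (x.2.1.down + 1), fun y hy => ?_⟩
        rcases List.mem_cons.1 hy with rfl | hy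
        · exact lt_of_lt_of_le (Nat.lt_succ_self _) (le_max_right _ _)
        · exact lt_of_lt_of_le (hn y hy) (le_max_left _ _)
    obtain ⟨n0, hn0⟩ := hn
    have hver : ∀ x ∈ ver Q s, q < x.1 ∧ x.2.1 < ULift.up n0 := by
      intro x hx
      obtain ⟨x', hx', h1, h2⟩ := ver_mem Q s hs x hx
      rw [← h1, ← h2]
      exact ⟨hq.trans_le (hp x' hx'), hn0 x' hx'⟩
    refine ⟨pt (q, ULift.up n0, false), e, ?_, ?_, ?_⟩
    · intro x hx
      obtain ⟨y, hy, rfl⟩ := List.mem_map.1 hx
      exact hlt _ _ (hver y hy).1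
    · have hF : ∀ (Q : List (P × ULift.{u} ℕ × Bool)) (s : List Bool), s.length = Q.length →
          (∀ x ∈ ver Q s, q < x.1 ∧ x.2.1 < ULift.up n0) →
          List.Forall₂ (fun x b => (x ∈ e ↔ b = true) ∧
            D (pt (q, ULift.up n0, false)) e x = c b) ((ver Q s).map pt) s := by
        intro Q
        induction Q with
        | nil =>
          intro s hs _
          have : s = [] := by simpa using hs
          subst this
          simp [ver]
        | cons x Q ihQ =>
          intro s hs hv
          match s, hs with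
          | b :: s, hs =>
            rw [ver_cons, List.map_cons]
            rw [ver_cons] at hv
            refine List.Forall₂.cons ⟨he _, ?_⟩ (ihQ s (by simpa using hs) fun x hx =>
              hv x (by simp [hx]))
            have h := hv (x.1, x.2.1, b) (by simp)
            exact hD _ _ h.1 h.2 rfl
      exact hF Q s hs hver
    · have h := ih q hq ((q, ULift.up n0, false) :: ver Q s) (List.pairwise_cons.2
        ⟨fun x hx => hver x hx, ver_pairwise Q s hs hQ⟩) (fun x hx => by
          rcases List.mem_cons.1 hx with rfl | hx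
          · exact le_rfl
          · exact (hver x hx).1.le)
      rw [List.map_cons] at h
      exact h

/-- A lexicographic well-order. -/
theorem exists_lex {K X : Type u} [LinearOrder K] [WellFoundedLT K] (lev : X → K) :
    ∃ (_ : LinearOrder X) (_ : WellFoundedLT X), ∀ x y : X, lev x < lev y → x < y := by
  let r : X → X → Prop := Order.Preimage (fun x => (lev x, x)) (Prod.Lex (· < ·) WellOrderingRel)
  have hinj : Function.Injective (fun x : X => (lev x, x)) := fun x y h => (Prod.mk.inj h).2
  have : IsWellOrder X r :=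
    (RelEmbedding.preimage ⟨_, hinj⟩ (Prod.Lex (· < ·) WellOrderingRel)).isWellOrder
  let _ := IsWellOrder.linearOrder r
  refine ⟨inferInstance, ⟨(inferInstance : IsWellOrder X r).wf⟩, fun x y h => ?_⟩
  exact Prod.Lex.left _ _ h

/-- The static theorem. -/
theorem star (C P : Type u) [LinearOrder P] [WellFoundedLT P] :
    ∃ (L : Type u) (_ : LinearOrder L) (_ : WellFoundedLT L), ∀ D : L → Set L → L → C,
      ∃ c : Bool → C, ∀ p : P, Good D c p [] := by
  classical
  obtain ⟨R, _, _, hR⟩ := erdos_rado (Bool → C) (ULift.{u} ℕ)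
  obtain ⟨K, _, _, hK⟩ := erdos_rado (R → R → Bool → C) P
  obtain ⟨B, hB⟩ := exists_blocks K R ((Bool → C) × P × List Bool)
  obtain ⟨_, _, hlex⟩ := exists_lex (K := K) (X := Σ k : K, R × B k) (fun x => x.1)
  refine ⟨Σ k : K, R × B k, inferInstance, inferInstance, fun D => ?_⟩
  obtain ⟨w, hw⟩ := exists_array B hB (fun F x => Step D x.1 x.2.1 x.2.2 F)
  let pt0 : K × R × Bool → Σ k : K, R × B k := fun y => ⟨y.1, y.2.1, w y.2.1 y.1 y.2.2⟩
  let e : Set (Σ k : K, R × B k) := {x | ∃ k r, x = pt0 (k, r, true)}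
  obtain ⟨g, hg, F, hF⟩ := hK (fun k k' r' r b =>
    D (pt0 (k, r, false)) e (pt0 (k', r', b)))
  obtain ⟨h, hh, c, hc⟩ := hR F
  have he : ∀ y : K × R × Bool, pt0 y ∈ e ↔ y.2.2 = true := by
    rintro ⟨k, r, b⟩
    constructor
    · rintro ⟨k', r', h'⟩
      cases b
      · exfalso
        have h1 : k = k' := congrArg Sigma.fst h'
        subst h1
        have h2 := eq_of_heq (Sigma.mk.inj h').2
        have h3 : r = r' := (Prod.mk.inj h2).1
        subst h3
        exact (hw r k).1 (Prod.mk.inj h2).2.symm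
      · rfl
    · intro h'
      change b = true at h'
      subst h'
      exact ⟨k, r, rfl⟩
  refine ⟨c, fun p => ?_⟩
  have hgood := good_of_homog D c (fun x => pt0 (g x.1, h x.2.1, x.2.2))
    (fun x y hxy => hlex _ _ (hg hxy)) e (fun x => he _) ?_ ?_ p [] List.Pairwise.nil (by simp)
  · simpa using hgood
  · rintro ⟨p1, n1, b1⟩ ⟨p2, n2, b2⟩ h1 h2 h3
    change b1 = false at h3
    subst h3
    have h4 := congrFun (congrFun (congrFun (hF p1 p2 h1) (h n2)) (h n1)) b2
    rw [hc n2 n1 h2] at h4
    exact h4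
  · intro Q s hs hQ q s'
    have h5 := flip (fun x : (Σ k : K, R × B k) => x.1) g hg
      (fun x : P × ULift.{u} ℕ × Bool => pt0 (g x.1, h x.2.1, x.2.2)) (fun x => rfl)
      (fun F (x : (Bool → C) × P × List Bool) => Step D x.1 x.2.1 x.2.2 F) ?_ Q s [] hs hQ
      (by simp)
    · have h6 := congrFun h5 (c, q, s')
      simp only [List.nil_append] at h6
      rw [h6]
    · rintro ⟨p1, n1, b1⟩ b l Q' hl hQ'
      have h7 := (hw (h n1) (g p1)).2 l (Q'.map fun x => (g x.1, h x.2.1, x.2.2)) hl
        (by
          intro y hy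
          obtain ⟨z, hz, rfl⟩ := List.mem_map.1 hy
          exact hh (hQ' z hz))
      rw [List.map_map] at h7
      have h8 : ∀ b, (fun x : (Bool → C) × P × List Bool => Step D x.1 x.2.1 x.2.2
          (l ++ pt0 (g p1, h n1, b) :: Q'.map fun x => pt0 (g x.1, h x.2.1, x.2.2))) =
          (fun x => Step D x.1 x.2.1 x.2.2
            (l ++ pt0 (g p1, h n1, true) :: Q'.map fun x => pt0 (g x.1, h x.2.1, x.2.2))) := by
        intro b
        cases b
        · exact h7.symm
        · rfl
      exact (h8 b).trans (h8 b1).symm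

end Pool.Agent.RK
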